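import Pool.Agent.Helper42.FR.Stmts

/-! # Sheet FR, row RB: the stable form of `exact` -/

set_option autoImplicit false

namespace Pool.Agent.Helper82.FR

open Matrix Pool.Agent.Helper81.Fmr Pool.Agent.Helper42.FR

universe u

section
variable {F : Type u} [Field F]

theorem rank_schur {n q : Type} [Fintype n] [DecidableEq n] [Fintype q] [DecidableEq q]
    (B : Matrix n q F) (C : Matrix q n F) (D : Matrix q q F) :
    Fintype.card n + (D - C * B).rank ≤ (fromBlocks 1 B C D).rank := by
  set N : Matrix (n ⊕ q) (n ⊕ q) F := fromBlocks 1 B C D with hN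
  set S : Matrix q q F := D - C * B with hS
  have h1 := LinearMap.finrank_range_add_finrank_ker N.mulVecLin
  have h2 := LinearMap.finrank_range_add_finrank_ker S.mulVecLin
  rw [Module.finrank_fintype_fun_eq_card] at h1 h2
  rw [Fintype.card_sum] at h1
  have hmem : ∀ x ∈ LinearMap.ker N.mulVecLin,
      x ∘ Sum.inl = -(B *ᵥ (x ∘ Sum.inr)) ∧ S *ᵥ (x ∘ Sum.inr) = 0 := by
    intro x hx
    rw [LinearMap.mem_ker, Matrix.mulVecLin_apply, hN, fromBlocks_mulVec] at hx
    have e1 : (1 : Matrix n n F) *ᵥ (x ∘ Sum.inl) + B *ᵥ (x ∘ Sum.inr) = 0 := by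
      funext i
      exact congrFun hx (Sum.inl i)
    have e2 : C *ᵥ (x ∘ Sum.inl) + D *ᵥ (x ∘ Sum.inr) = 0 := by
      funext i
      exact congrFun hx (Sum.inr i)
    rw [one_mulVec] at e1
    have e3 := eq_neg_of_add_eq_zero_left e1
    refine ⟨e3, ?_⟩
    rw [e3, mulVec_neg, mulVec_mulVec] at e2
    rw [hS, sub_mulVec, sub_eq_add_neg, add_comm]
    exact e2
  have h3 : Module.finrank F (LinearMap.ker N.mulVecLin) ≤
      Module.finrank F (LinearMap.ker S.mulVecLin) := by
    let f : (n ⊕ q → F) →ₗ[F] (q → F) := LinearMap.funLeft F F Sum.inr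
    have hf : ∀ x ∈ LinearMap.ker N.mulVecLin, f x ∈ LinearMap.ker S.mulVecLin := by
      intro x hx
      rw [LinearMap.mem_ker, Matrix.mulVecLin_apply]
      exact (hmem x hx).2
    refine LinearMap.finrank_le_finrank_of_injective (f := f.restrict hf) ?_
    intro x y hxy
    have h4 : (x : n ⊕ q → F) ∘ Sum.inr = (y : n ⊕ q → F) ∘ Sum.inr :=
      congrArg Subtype.val hxy
    apply Subtype.ext
    funext i
    rcases i with i | i
    · have a1 := congrFun (hmem x x.2).1 i
      have a2 := congrFun (hmem y y.2).1 i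
      rw [h4] at a1
      exact a1.trans a2.symm
    · exact congrFun h4 i
  have e1 : N.rank = Module.finrank F (LinearMap.range N.mulVecLin) := rfl
  have e2 : S.rank = Module.finrank F (LinearMap.range S.mulVecLin) := rfl
  rw [e1, e2]
  omega

theorem rank_neg' {b : ℕ} (X : Matrix (Fin b) (Fin b) F) : (-X).rank = X.rank := by
  have h : ∀ Y : Matrix (Fin b) (Fin b) F, (-Y).rank ≤ Y.rank := by
    intro Y
    have : -Y = (-1) * Y := by simp
    rw [this]
    exact rank_mul_le_right _ _
  refine le_antisymm (h X) ?_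
  have := h (-X)
  rwa [neg_neg] at this

theorem AE_symm {b c : ℕ} {X Y : Matrix (Fin b) (Fin b) F} (h : AE c X Y) : AE c Y X := by
  unfold AE at *
  rw [← neg_sub, rank_neg']
  exact h

theorem AE_trans {b c c' : ℕ} {X Y Z : Matrix (Fin b) (Fin b) F} (h : AE c X Y)
    (h' : AE c' Y Z) : AE (c + c') X Z := by
  unfold AE at *
  have : X - Z = (X - Y) + (Y - Z) := by abel
  rw [this]
  exact (rank_add_le' _ _).trans (add_le_add h h')

theorem AE_mono {b c c' : ℕ} {X Y : Matrix (Fin b) (Fin b) F} (h : AE c X Y) (hc : c ≤ c') :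
    AE c' X Y := le_trans h hc

theorem AE_mul_left {b c : ℕ} {X Y : Matrix (Fin b) (Fin b) F} (W : Matrix (Fin b) (Fin b) F)
    (h : AE c X Y) : AE c (W * X) (W * Y) := by
  unfold AE at *
  rw [← mul_sub]
  exact (rank_mul_le_right _ _).trans h

theorem AE_mul_right {b c : ℕ} {X Y : Matrix (Fin b) (Fin b) F} (W : Matrix (Fin b) (Fin b) F)
    (h : AE c X Y) : AE c (X * W) (Y * W) := by
  unfold AE at *
  rw [← sub_mul]
  exact (rank_mul_le_left _ _).trans h

theorem AE_sub_left {b c : ℕ} {X Y : Matrix (Fin b) (Fin b) F} (W : Matrix (Fin b) (Fin b) F)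
    (h : AE c X Y) : AE c (W - X) (W - Y) := by
  unfold AE at *
  have : W - X - (W - Y) = -(X - Y) := by abel
  rw [this, rank_neg']
  exact h

theorem key_rank {V μ : Type} [DecidableEq V] [Fintype V] [Fintype μ] (S : Sys F V μ) (b d : ℕ)
    (M : Matrix ((Fin 3 ⊕ Option (V × Fin 3)) × Fin b) ((Fin 3 ⊕ ((V × Bool) ⊕ μ)) × Fin b) F)
    (hM : IsCompletion (pm S) b M) (hr : M.rank ≤ 3 * b + d) (i) (j) :
    AE d (blk M (Sum.inr i) (Sum.inr j)) (blk M (Sum.inr i) (Sum.inl 0) *
        blk M (Sum.inl 0) (Sum.inr j)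
      + blk M (Sum.inr i) (Sum.inl 1) * blk M (Sum.inl 1) (Sum.inr j)
      + blk M (Sum.inr i) (Sum.inl 2) * blk M (Sum.inl 2) (Sum.inr j)) := by
  set f : (Fin 3 × Fin b) ⊕ Fin b → (Fin 3 ⊕ Option (V × Fin 3)) × Fin b :=
    Sum.elim (fun x => (Sum.inl x.1, x.2)) (fun k => (Sum.inr i, k)) with hf
  set g : (Fin 3 × Fin b) ⊕ Fin b → (Fin 3 ⊕ ((V × Bool) ⊕ μ)) × Fin b :=
    Sum.elim (fun x => (Sum.inl x.1, x.2)) (fun k => (Sum.inr j, k)) with hg
  have hN : (M.submatrix f g).rank ≤ 3 * b + d := le_trans (rank_submatrix_le M f g) hr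
  have hblk : M.submatrix f g = fromBlocks 1
      (Matrix.of fun (x : Fin 3 × Fin b) (l : Fin b) => M (Sum.inl x.1, x.2) (Sum.inr j, l))
      (Matrix.of fun (k : Fin b) (x : Fin 3 × Fin b) => M (Sum.inr i, k) (Sum.inl x.1, x.2))
      (blk M (Sum.inr i) (Sum.inr j)) := by
    ext a c
    rcases a with a | a <;> rcases c with c | c
    · have := hM (Sum.inl a.1) (Sum.inl c.1) _ rfl a.2 c.2
      simp only [hf, hg, submatrix_apply, Sum.elim_inl, fromBlocks_apply₁₁, this,
        Matrix.one_apply, Prod.ext_iff]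
      by_cases h1 : a.1 = c.1 <;> by_cases h2 : a.2 = c.2 <;> simp [h1, h2]
    · simp [hf, hg, blk]
    · simp [hf, hg, blk]
    · simp [hf, hg, blk]
  rw [hblk] at hN
  have h5 := rank_schur
    (Matrix.of fun (x : Fin 3 × Fin b) (l : Fin b) => M (Sum.inl x.1, x.2) (Sum.inr j, l))
      (Matrix.of fun (k : Fin b) (x : Fin 3 × Fin b) => M (Sum.inr i, k) (Sum.inl x.1, x.2))
      (blk M (Sum.inr i) (Sum.inr j))
  rw [Fintype.card_prod, Fintype.card_fin, Fintype.card_fin] at h5
  have h6 : (Matrix.of fun (k : Fin b) (x : Fin 3 × Fin b) => M (Sum.inr i, k)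
      (Sum.inl x.1, x.2)) * (Matrix.of fun (x : Fin 3 × Fin b) (l : Fin b) =>
        M (Sum.inl x.1, x.2) (Sum.inr j, l)) = blk M (Sum.inr i) (Sum.inl 0) *
        blk M (Sum.inl 0) (Sum.inr j)
      + blk M (Sum.inr i) (Sum.inl 1) * blk M (Sum.inl 1) (Sum.inr j)
      + blk M (Sum.inr i) (Sum.inl 2) * blk M (Sum.inl 2) (Sum.inr j) := by
    ext k l
    simp only [blk, Matrix.of_apply, Matrix.add_apply, Matrix.mul_apply]
    rw [Fintype.sum_prod_type, Fin.sum_univ_three]
  rw [h6] at h5
  unfold AE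
  omega

end

theorem st_RB (F : Type u) [Field F] : ST_RB F := by
  intro V μ iD iV iμ S b d M hM hr z hz
  have key := key_rank S b d M hM hr
  have sp : ∀ {i j a}, pm S i j = some a → blk M i j = a • (1 : Matrix (Fin b) (Fin b) F) :=
    fun h => blk_of_spec hM h
  have hzi : ∀ i, z i = blk M (Sum.inr (some (i, 1))) (Sum.inl 2) := fun i => by rw [hz]
  have hP : ∀ i, AE d (blk M (Sum.inl 1) (Sum.inr (Sum.inl (i, false)))) (z i) := by
    intro i
    have h := key (some (i, 1)) (Sum.inl (i, false))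
    rw [sp (i := Sum.inr (some (i, 1))) (j := Sum.inr (Sum.inl (i, false))) (a := 0)
        (by simp [pm, Sp]),
      sp (i := Sum.inr (some (i, 1))) (j := Sum.inl 0) (a := 0) rfl,
      sp (i := Sum.inr (some (i, 1))) (j := Sum.inl 1) (a := -1) rfl,
      sp (i := Sum.inl 2) (j := Sum.inr (Sum.inl (i, false))) (a := 1) rfl] at h
    simp only [zero_smul, zero_mul, zero_add, neg_smul, one_smul, neg_mul, one_mul, mul_one,
      ← hzi] at h
    unfold AE at h ⊢
    convert h using 2
    abel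
  have hMi : ∀ i, AE (2 * d) (blk M (Sum.inr (some (i, 0))) (Sum.inl 0)) (z i) := by
    intro i
    have h := key (some (i, 0)) (Sum.inl (i, false))
    rw [sp (i := Sum.inr (some (i, 0))) (j := Sum.inr (Sum.inl (i, false))) (a := 0)
        (by simp [pm, Sp]),
      sp (i := Sum.inr (some (i, 0))) (j := Sum.inl 1) (a := -1) rfl,
      sp (i := Sum.inr (some (i, 0))) (j := Sum.inl 2) (a := 0) rfl,
      sp (i := Sum.inl 0) (j := Sum.inr (Sum.inl (i, false))) (a := 1) rfl] at h
    simp only [zero_smul, zero_mul, add_zero, neg_smul, one_smul, neg_mul, one_mul, mul_one] at h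
    have h7 : AE d (blk M (Sum.inr (some (i, 0))) (Sum.inl 0))
        (blk M (Sum.inl 1) (Sum.inr (Sum.inl (i, false)))) := by
      apply AE_symm
      unfold AE at h ⊢
      convert h using 2
      abel
    exact AE_mono (AE_trans h7 (hP i)) (by omega)
  have hD2 : ∀ i, AE d (blk M (Sum.inl 1) (Sum.inr (Sum.inl (i, true)))) (z i) := by
    intro i
    have h := key (some (i, 1)) (Sum.inl (i, true))
    rw [sp (i := Sum.inr (some (i, 1))) (j := Sum.inr (Sum.inl (i, true))) (a := 0)
        (by simp [pm, Sp]),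
      sp (i := Sum.inr (some (i, 1))) (j := Sum.inl 0) (a := 0) rfl,
      sp (i := Sum.inr (some (i, 1))) (j := Sum.inl 1) (a := -1) rfl,
      sp (i := Sum.inl 2) (j := Sum.inr (Sum.inl (i, true))) (a := 1) rfl] at h
    simp only [zero_smul, zero_mul, zero_add, neg_smul, one_smul, neg_mul, one_mul, mul_one,
      ← hzi] at h
    unfold AE at h ⊢
    convert h using 2
    abel
  have hD1 : ∀ i, AE (2 * d) (blk M (Sum.inl 0) (Sum.inr (Sum.inl (i, true)))) (z i) := by
    intro i
    have h := key none (Sum.inl (i, true))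
    rw [sp (i := Sum.inr none) (j := Sum.inr (Sum.inl (i, true))) (a := 0) rfl,
      sp (i := Sum.inr none) (j := Sum.inl 0) (a := 1) rfl,
      sp (i := Sum.inr none) (j := Sum.inl 1) (a := -1) rfl,
      sp (i := Sum.inr none) (j := Sum.inl 2) (a := 0) rfl] at h
    simp only [zero_smul, zero_mul, add_zero, neg_smul, one_smul, neg_mul, one_mul] at h
    have h7 : AE d (blk M (Sum.inl 0) (Sum.inr (Sum.inl (i, true))))
        (blk M (Sum.inl 1) (Sum.inr (Sum.inl (i, true)))) := by
      apply AE_symm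
      unfold AE at h ⊢
      convert h using 2
      abel
    exact AE_mono (AE_trans h7 (hD2 i)) (by omega)
  have hN : ∀ i, AE (3 * d) (blk M (Sum.inr (some (i, 2))) (Sum.inl 2)) (z i) := by
    intro i
    have h := key (some (i, 2)) (Sum.inl (i, true))
    rw [sp (i := Sum.inr (some (i, 2))) (j := Sum.inr (Sum.inl (i, true))) (a := 0)
        (by simp [pm, Sp]),
      sp (i := Sum.inr (some (i, 2))) (j := Sum.inl 0) (a := -1) rfl,
      sp (i := Sum.inr (some (i, 2))) (j := Sum.inl 1) (a := 0) rfl,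
      sp (i := Sum.inl 2) (j := Sum.inr (Sum.inl (i, true))) (a := 1) rfl] at h
    simp only [zero_smul, zero_mul, add_zero, neg_smul, one_smul, neg_mul, one_mul, mul_one] at h
    have h7 : AE d (blk M (Sum.inr (some (i, 2))) (Sum.inl 2))
        (blk M (Sum.inl 0) (Sum.inr (Sum.inl (i, true)))) := by
      apply AE_symm
      unfold AE at h ⊢
      convert h using 2
      abel
    exact AE_mono (AE_trans h7 (hD1 i)) (by omega)
  refine ⟨?_, ?_, ?_⟩
  · intro m
    have h1 := key (some (S.r m, 2)) (Sum.inr m)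
    rw [sp (i := Sum.inr (some (S.r m, 2))) (j := Sum.inr (Sum.inr m)) (a := 0)
        (by simp [pm, Sp]),
      sp (i := Sum.inr (some (S.r m, 2))) (j := Sum.inl 0) (a := -1) rfl,
      sp (i := Sum.inr (some (S.r m, 2))) (j := Sum.inl 1) (a := 0) rfl,
      sp (i := Sum.inl 2) (j := Sum.inr (Sum.inr m)) (a := 1) rfl] at h1
    simp only [zero_smul, zero_mul, add_zero, neg_smul, one_smul, neg_mul, one_mul, mul_one] at h1
    have g1 : AE d (blk M (Sum.inl 0) (Sum.inr (Sum.inr m)))
        (blk M (Sum.inr (some (S.r m, 2))) (Sum.inl 2)) := by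
      unfold AE at h1 ⊢
      convert h1 using 2
      abel
    have h2 := key (some (S.o m, 1)) (Sum.inr m)
    rw [sp (i := Sum.inr (some (S.o m, 1))) (j := Sum.inr (Sum.inr m)) (a := 0)
        (by simp [pm, Sp]),
      sp (i := Sum.inr (some (S.o m, 1))) (j := Sum.inl 0) (a := 0) rfl,
      sp (i := Sum.inr (some (S.o m, 1))) (j := Sum.inl 1) (a := -1) rfl,
      sp (i := Sum.inl 2) (j := Sum.inr (Sum.inr m)) (a := 1) rfl] at h2
    simp only [zero_smul, zero_mul, zero_add, neg_smul, one_smul, neg_mul, one_mul, mul_one,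
      ← hzi] at h2
    have g2 : AE d (blk M (Sum.inl 1) (Sum.inr (Sum.inr m))) (z (S.o m)) := by
      unfold AE at h2 ⊢
      convert h2 using 2
      abel
    have h3 := key (some (S.l m, 0)) (Sum.inr m)
    rw [sp (i := Sum.inr (some (S.l m, 0))) (j := Sum.inr (Sum.inr m)) (a := 0)
        (by simp [pm, Sp]),
      sp (i := Sum.inr (some (S.l m, 0))) (j := Sum.inl 1) (a := -1) rfl,
      sp (i := Sum.inr (some (S.l m, 0))) (j := Sum.inl 2) (a := 0) rfl] at h3
    simp only [zero_smul, zero_mul, add_zero, neg_smul, one_smul, neg_mul, one_mul] at h3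
    have g3 : AE d (blk M (Sum.inr (some (S.l m, 0))) (Sum.inl 0) *
        blk M (Sum.inl 0) (Sum.inr (Sum.inr m))) (blk M (Sum.inl 1) (Sum.inr (Sum.inr m))) := by
      apply AE_symm
      unfold AE at h3 ⊢
      convert h3 using 2
      abel
    have g4 : AE (4 * d) (blk M (Sum.inl 0) (Sum.inr (Sum.inr m))) (z (S.r m)) :=
      AE_mono (AE_trans g1 (hN _)) (by omega)
    have g5 : AE (2 * d) (z (S.l m) * z (S.r m))
        (blk M (Sum.inr (some (S.l m, 0))) (Sum.inl 0) * z (S.r m)) :=
      AE_mul_right _ (AE_symm (hMi _))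
    have g6 : AE (4 * d) (blk M (Sum.inr (some (S.l m, 0))) (Sum.inl 0) * z (S.r m))
        (blk M (Sum.inr (some (S.l m, 0))) (Sum.inl 0) *
          blk M (Sum.inl 0) (Sum.inr (Sum.inr m))) :=
      AE_mul_left _ (AE_symm g4)
    exact AE_mono (AE_trans (AE_trans (AE_trans g5 g6) g3) g2) (by omega)
  · intro i j a hij hd
    have h := key (some (i, 1)) (Sum.inl (j, false))
    rw [sp (i := Sum.inr (some (i, 1))) (j := Sum.inr (Sum.inl (j, false))) (a := a)
        (by simp [pm, Sp, hij, hd]),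
      sp (i := Sum.inr (some (i, 1))) (j := Sum.inl 0) (a := 0) rfl,
      sp (i := Sum.inr (some (i, 1))) (j := Sum.inl 1) (a := -1) rfl,
      sp (i := Sum.inl 2) (j := Sum.inr (Sum.inl (j, false))) (a := 1) rfl] at h
    simp only [zero_smul, zero_mul, zero_add, neg_smul, one_smul, neg_mul, one_mul, mul_one,
      ← hzi] at h
    have h8 : AE d (z i - blk M (Sum.inl 1) (Sum.inr (Sum.inl (j, false)))) (a • 1) := by
      apply AE_symm
      unfold AE at h ⊢
      convert h using 2
      abel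
    have h9 : AE d (z i - z j) (z i - blk M (Sum.inl 1) (Sum.inr (Sum.inl (j, false)))) :=
      AE_sub_left _ (AE_symm (hP j))
    exact AE_mono (AE_trans h9 h8) (by omega)
  · intro i a hk
    rw [hzi]
    exact sp (i := Sum.inr (some (i, 1))) (j := Sum.inl 2) hk

end Pool.Agent.Helper82.FR
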