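import Pool.Agent.Helper51.FR.UPa

/-! # Sheet FR, row UP: the model -/

set_option autoImplicit false

namespace Pool.Agent.Helper82.FR

open Matrix Pool.Agent.Helper81.Fmr Pool.Agent.Helper42.FR Pool.Agent.Helper51.FR

universe u

section model
variable {G Y : Type} {q : ℕ} [DecidableEq Y]

/-- lift of a permutation -/
def lift (s : Equiv.Perm G) : Equiv.Perm (G × (Y → Fin q)) := Equiv.prodCongr s (Equiv.refl _)

theorem lift_app (s : Equiv.Perm G) (z : G × (Y → Fin q)) : lift s z = (s z.1, z.2) := rfl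

theorem lift_inv (s : Equiv.Perm G) (z : G × (Y → Fin q)) : (lift s)⁻¹ z = (s⁻¹ z.1, z.2) := rfl

/-- change two coordinates -/
def upd (a b : Y) (p : Fin q × Fin q) (y : Y → Fin q) : Y → Fin q :=
  Function.update (Function.update y a p.1) b p.2

theorem upd_a {a b : Y} (h : a ≠ b) (p : Fin q × Fin q) (y : Y → Fin q) : upd a b p y a = p.1 := by
  unfold upd
  rw [Function.update_of_ne h, Function.update_self]

theorem upd_b (a b : Y) (p : Fin q × Fin q) (y : Y → Fin q) : upd a b p y b = p.2 := by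
  unfold upd
  rw [Function.update_self]

theorem upd_c {a b c : Y} (h : c ≠ a) (h' : c ≠ b) (p : Fin q × Fin q) (y : Y → Fin q) :
    upd a b p y c = y c := by
  unfold upd
  rw [Function.update_of_ne h', Function.update_of_ne h]

theorem upd_upd {a b : Y} (h : a ≠ b) (p p' : Fin q × Fin q) (y : Y → Fin q) :
    upd a b p (upd a b p' y) = upd a b p y := by
  funext c
  by_cases h1 : c = b
  · subst h1
    rw [upd_b, upd_b]
  · by_cases h2 : c = a
    · subst h2
      rw [upd_a h, upd_a h]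
    · rw [upd_c h2 h1, upd_c h2 h1, upd_c h2 h1]

theorem upd_id {a b : Y} (h : a ≠ b) (y : Y → Fin q) : upd a b (y a, y b) y = y := by
  funext c
  by_cases h1 : c = b
  · subst h1
    rw [upd_b]
  · by_cases h2 : c = a
    · subst h2
      rw [upd_a h]
    · rw [upd_c h2 h1]

/-- the local map -/
def hm (s : Equiv.Perm G) (x : G → Y) (H : Equiv.Perm (Fin q × Fin q))
    (z : G × (Y → Fin q)) : G × (Y → Fin q) :=
  if x z.1 = x (s z.1) then z else
    (z.1, upd (x z.1) (x (s z.1)) (H (z.2 (x z.1), z.2 (x (s z.1)))) z.2)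

theorem hm_inv (s : Equiv.Perm G) (x : G → Y) (H H' : Equiv.Perm (Fin q × Fin q))
    (hH : ∀ p, H' (H p) = p) (z : G × (Y → Fin q)) : hm s x H' (hm s x H z) = z := by
  by_cases h : x z.1 = x (s z.1)
  · have e1 : hm s x H z = z := by
      unfold hm
      rw [if_pos h]
    rw [e1]
    unfold hm
    rw [if_pos h]
  · have e1 : hm s x H z =
        (z.1, upd (x z.1) (x (s z.1)) (H (z.2 (x z.1), z.2 (x (s z.1)))) z.2) := by
      unfold hm
      rw [if_neg h]
    rw [e1]
    unfold hm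
    rw [if_neg h]
    refine Prod.ext rfl ?_
    show upd (x z.1) (x (s z.1)) (H' (upd (x z.1) (x (s z.1)) _ z.2 (x z.1),
      upd (x z.1) (x (s z.1)) _ z.2 (x (s z.1)))) (upd (x z.1) (x (s z.1)) _ z.2) = z.2
    rw [upd_a h, upd_b, upd_upd h, Prod.mk.eta, hH, upd_id h]

/-- the local permutation -/
def Hm (s : Equiv.Perm G) (x : G → Y) (H : Equiv.Perm (Fin q × Fin q)) :
    Equiv.Perm (G × (Y → Fin q)) where
  toFun := hm s x H
  invFun := hm s x H⁻¹
  left_inv := hm_inv s x H H⁻¹ (fun p => by simp)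
  right_inv := hm_inv s x H⁻¹ H (fun p => by simp)

/-- the pair of coordinates -/
def pr2 (s : Equiv.Perm G) (x : G → Y) (z : G × (Y → Fin q)) : Fin q × Fin q :=
  (z.2 (x z.1), z.2 (x (s z.1)))

theorem hm_fst (s : Equiv.Perm G) (x : G → Y) (H : Equiv.Perm (Fin q × Fin q))
    (z : G × (Y → Fin q)) : (hm s x H z).1 = z.1 := by
  unfold hm
  split_ifs <;> rfl

theorem hm_pr (s : Equiv.Perm G) (x : G → Y) (H : Equiv.Perm (Fin q × Fin q))
    (z : G × (Y → Fin q)) (h : x z.1 ≠ x (s z.1)) :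
    pr2 s x (hm s x H z) = H (pr2 s x z) := by
  have e1 : hm s x H z =
      (z.1, upd (x z.1) (x (s z.1)) (H (z.2 (x z.1), z.2 (x (s z.1)))) z.2) := by
    unfold hm
    rw [if_neg h]
  rw [e1]
  unfold pr2
  show (upd (x z.1) (x (s z.1)) _ z.2 (x z.1), upd (x z.1) (x (s z.1)) _ z.2 (x (s z.1))) = _
  rw [upd_a h, upd_b]

theorem Hm_inv (s : Equiv.Perm G) (x : G → Y) (H : Equiv.Perm (Fin q × Fin q))
    (z : G × (Y → Fin q)) : (Hm s x H)⁻¹ z = hm s x H⁻¹ z := rfl

theorem Hm_app (s : Equiv.Perm G) (x : G → Y) (H : Equiv.Perm (Fin q × Fin q))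
    (z : G × (Y → Fin q)) : Hm s x H z = hm s x H z := rfl

/-- weight of `e` -/
def Aw (F : Type u) [Field F] (k : ℕ) (x : G → Y) (z : G × (Y → Fin q)) : F :=
  if (z.2 (x z.1) : ℕ) < k then 1 else 0

theorem EW_eq (F : Type u) [Field F] (k : ℕ) (s : Equiv.Perm G) (x : G → Y)
    (H : Equiv.Perm (Fin q × Fin q)) (A : Fin 5 → Finset (Fin q × Fin q))
    (a0 : ∀ y, y ∈ A 0 ↔ (y.1 : ℕ) < k) (a1 : ∀ y, H y ∈ A 1 ↔ y ∈ A 0)
    (a2 : ∀ y, H y ∈ A 2 ↔ y ∈ A 1) (a3 : ∀ y, H y ∈ A 3 ↔ y ∈ A 2)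
    (a4 : ∀ y, H (H (H (H y))) ∈ A 4 ↔ ((y.1 : ℕ) < k ∧ (y.2 : ℕ) < k))
    (z : G × (Y → Fin q)) (h : x z.1 ≠ x (s z.1)) (i : Fin 5) :
    EW (lift s) (Hm s x H) (Aw F k x) i z = if pr2 s x z ∈ A i then 1 else 0 := by
  have e0 : ∀ w : G × (Y → Fin q), Aw F k x w = if pr2 s x w ∈ A 0 then 1 else 0 := by
    intro w
    unfold Aw pr2
    simp only [a0]
  have ep : ∀ w : G × (Y → Fin q), x w.1 ≠ x (s w.1) →
      pr2 s x ((Hm s x H)⁻¹ w) = H⁻¹ (pr2 s x w) := fun w hw => hm_pr s x H⁻¹ w hw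
  have e1 : ∀ w : G × (Y → Fin q), ((Hm s x H)⁻¹ w).1 = w.1 := fun w => hm_fst s x H⁻¹ w
  set z1 := (Hm s x H)⁻¹ z with hz1
  set z2 := (Hm s x H)⁻¹ z1 with hz2
  set z3 := (Hm s x H)⁻¹ z2 with hz3
  set z4 := (Hm s x H)⁻¹ z3 with hz4
  have f1 : z1.1 = z.1 := e1 z
  have f2 : z2.1 = z.1 := (e1 z1).trans f1
  have f3 : z3.1 = z.1 := (e1 z2).trans f2
  have f4 : z4.1 = z.1 := (e1 z3).trans f3
  have g1 : H (pr2 s x z1) = pr2 s x z := by
    rw [hz1, ep z h]
    simp
  have g2 : H (pr2 s x z2) = pr2 s x z1 := by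
    rw [hz2, ep z1 (by rw [f1]; exact h)]
    simp
  have g3 : H (pr2 s x z3) = pr2 s x z2 := by
    rw [hz3, ep z2 (by rw [f2]; exact h)]
    simp
  have g4 : H (pr2 s x z4) = pr2 s x z3 := by
    rw [hz4, ep z3 (by rw [f3]; exact h)]
    simp
  have i1 : pr2 s x z1 ∈ A 0 ↔ pr2 s x z ∈ A 1 := by rw [← g1, a1]
  have i2 : pr2 s x z2 ∈ A 0 ↔ pr2 s x z ∈ A 2 := by rw [← g1, a2, ← g2, a1]
  have i3 : pr2 s x z3 ∈ A 0 ↔ pr2 s x z ∈ A 3 := by rw [← g1, a3, ← g2, a2, ← g3, a1]
  have i4 : ((pr2 s x z4).1 : ℕ) < k ∧ ((pr2 s x z4).2 : ℕ) < k ↔ pr2 s x z ∈ A 4 := by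
    rw [← g1, ← g2, ← g3, ← g4, a4]
  fin_cases i
  · exact e0 z
  · show Aw F k x z1 = _
    rw [e0]
    simp only [i1]
    rfl
  · show Aw F k x z2 = _
    rw [e0]
    simp only [i2]
    rfl
  · show Aw F k x z3 = _
    rw [e0]
    simp only [i3]
    rfl
  · show Aw F k x z4 * Aw F k x (lift s z4) = if pr2 s x z ∈ A 4 then 1 else 0
    have j1 : Aw F k x z4 = if ((pr2 s x z4).1 : ℕ) < k then 1 else 0 := rfl
    have j2 : Aw F k x (lift s z4) = if ((pr2 s x z4).2 : ℕ) < k then 1 else 0 := rfl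
    rw [j1, j2]
    by_cases c1 : ((pr2 s x z4).1 : ℕ) < k
    · by_cases c2 : ((pr2 s x z4).2 : ℕ) < k
      · rw [if_pos c1, if_pos c2, if_pos (i4.1 ⟨c1, c2⟩), one_mul]
      · rw [if_neg c2, if_neg (fun h => c2 (i4.2 h).2), mul_zero]
    · rw [if_neg c1, if_neg (fun h => c1 (i4.2 h).1), zero_mul]

/-- number of configurations with `e = 1` -/
theorem card_e [Fintype G] [Fintype Y] [DecidableEq G] (k : ℕ) (x : G → Y) :
    (Finset.univ.filter fun z : G × (Y → Fin q) => (z.2 (x z.1) : ℕ) < k).card * q ≤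
      k * Fintype.card (G × (Y → Fin q)) := by
  classical
  have h1 : Fintype.card ({z : G × (Y → Fin q) // (z.2 (x z.1) : ℕ) < k} × Fin q) ≤
      Fintype.card (Fin k × (G × (Y → Fin q))) := by
    refine Fintype.card_le_of_injective (fun w => (⟨w.1.1.2 (x w.1.1.1), w.1.2⟩,
      (w.1.1.1, Function.update w.1.1.2 (x w.1.1.1) w.2))) ?_
    rintro ⟨⟨⟨g, y⟩, h⟩, u⟩ ⟨⟨⟨g', y'⟩, h'⟩, u'⟩ hw
    simp only [Prod.mk.injEq, Fin.mk.injEq] at hw
    obtain ⟨w1, w2, w3⟩ := hw
    subst w2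
    have hu : u = u' := by
      have := congrFun w3 (x g)
      simpa using this
    have hy : y = y' := by
      funext c
      by_cases hc : c = x g
      · subst hc
        exact Fin.ext w1
      · have := congrFun w3 c
        simpa [Function.update_of_ne hc] using this
    subst hu hy
    rfl
  rw [Fintype.card_prod, Fintype.card_prod, Fintype.card_fin, Fintype.card_fin,
    Fintype.card_subtype] at h1
  exact h1

/-- number of configurations with the exceptional pair -/
theorem card_ex [Fintype G] [Fintype Y] [DecidableEq G] (s : Equiv.Perm G) (x : G → Y)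
    (E : Finset (Fin q × Fin q)) (hE : E.card ≤ 1) :
    (Finset.univ.filter fun z : G × (Y → Fin q) => x z.1 ≠ x (s z.1) ∧ pr2 s x z ∈ E).card *
      (q * q) ≤ Fintype.card (G × (Y → Fin q)) := by
  classical
  have h1 : Fintype.card ({z : G × (Y → Fin q) // x z.1 ≠ x (s z.1) ∧ pr2 s x z ∈ E} ×
      (Fin q × Fin q)) ≤ Fintype.card (G × (Y → Fin q)) := by
    refine Fintype.card_le_of_injective (fun w => (w.1.1.1,
      upd (x w.1.1.1) (x (s w.1.1.1)) w.2 w.1.1.2)) ?_
    rintro ⟨⟨⟨g, y⟩, h, hp⟩, u⟩ ⟨⟨⟨g', y'⟩, h', hp'⟩, u'⟩ hw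
    simp only [Prod.mk.injEq] at hw
    obtain ⟨w1, w2⟩ := hw
    subst w1
    have h2 : pr2 s x (g, y) = pr2 s x (g, y') := Finset.card_le_one.1 hE _ hp _ hp'
    have h3 : (y (x g), y (x (s g))) = (y' (x g), y' (x (s g))) := h2
    simp only [Prod.mk.injEq] at h3
    have hu : u = u' := by
      have c1 := congrFun w2 (x g)
      have c2 := congrFun w2 (x (s g))
      rw [upd_a h, upd_a h] at c1
      rw [upd_b, upd_b] at c2
      exact Prod.ext c1 c2
    have hy : y = y' := by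
      funext c
      by_cases hc : c = x g
      · subst hc
        exact h3.1
      · by_cases hc' : c = x (s g)
        · subst hc'
          exact h3.2
        · have := congrFun w2 c
          rwa [upd_c hc hc', upd_c hc hc'] at this
    subst hu hy
    rfl
  rw [Fintype.card_prod, Fintype.card_prod, Fintype.card_fin, Fintype.card_subtype] at h1
  exact h1

end model

theorem st_UP (F : Type u) [Field F] (h1 : ST_FO) (h2 : ST_HH) (h3 : ST_CF) : ST_UP F := by
  classical
  intro η hη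
  obtain ⟨N, hN⟩ := exists_nat_gt (2 / η)
  have hN0 : (0 : ℝ) < N := lt_trans (by positivity) hN
  have hNpos : 0 < N := by exact_mod_cast hN0
  have hNη : 1 / (N : ℝ) ≤ η / 2 := by
    rw [div_le_div_iff₀ hN0 (by norm_num)]
    rw [div_lt_iff₀ hη] at hN
    linarith
  obtain ⟨q, k, hq, hkq, heq, hk5⟩ := h3 N
  have hq0 : 0 < q := lt_of_lt_of_le hNpos hq
  obtain ⟨H, A, a0, a1, a2, a3, a4, adis, acov⟩ := h2 q k hkq heq
  obtain ⟨G, Y, iG, iG', iY, iY', iN, s, t, x, bad0, hb0, hgood⟩ := h1 N hNpos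
  haveI : Nonempty (Fin q) := ⟨⟨0, hq0⟩⟩
  set E : Finset (Fin q × Fin q) := Finset.univ \ (Finset.univ.biUnion A) with hEdef
  set B1 : Finset (G × (Y → Fin q)) := bad0 ×ˢ Finset.univ with hB1
  set B2 : Finset (G × (Y → Fin q)) :=
    Finset.univ.filter fun z => x z.1 ≠ x (s z.1) ∧ pr2 s x z ∈ E with hB2
  have hA : ∀ z : G × (Y → Fin q), Aw F k x z * Aw F k x z = Aw F k x z := by
    intro z
    unfold Aw
    split_ifs <;> simp
  obtain ⟨z, z1, z2, bad', z3, z4, z5⟩ := core (F := F) (lift s) (lift t) (Hm s x H)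
    (Aw F k x) (B1 ∪ B2) hA (by
      rintro ⟨g, y⟩ hc
      rw [Finset.mem_union, not_or] at hc
      obtain ⟨c1, c2⟩ := hc
      have hg : g ∉ bad0 := by
        intro h
        exact c1 (Finset.mem_product.2 ⟨h, Finset.mem_univ _⟩)
      obtain ⟨g1, g2, g3, g4, g5, g6, g7, g8⟩ := hgood g hg
      have hEW := EW_eq F k s x H A a0 a1 a2 a3 a4 (g, y) g1
      have hcov : ∃ i, pr2 s x (g, y) ∈ A i := by
        by_contra hcon
        apply c2
        rw [hB2, Finset.mem_filter]
        refine ⟨Finset.mem_univ _, g1, ?_⟩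
        rw [hEdef, Finset.mem_sdiff]
        refine ⟨Finset.mem_univ _, ?_⟩
        intro h
        rw [Finset.mem_biUnion] at h
        obtain ⟨i, -, hi⟩ := h
        exact hcon ⟨i, hi⟩
      refine ⟨?_, ?_, ?_, ?_, ?_, ?_, ?_, ?_⟩
      · refine Prod.ext ?_ rfl
        exact g8.symm
      · rw [Hm_app, Hm_app]
        unfold hm
        have e1 : x ((lift s) ((lift t) (g, y))).1 = x g := g4
        have e2 : x (s ((lift s) ((lift t) (g, y))).1) = x (s g) := g5
        have e3 : ((lift s) ((lift t) (g, y))).2 = y := rfl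
        rw [if_neg g1, e1, e2, e3, if_neg g1]
        rfl
      · unfold Aw
        have e1 : x ((lift s) ((lift t) (g, y))).1 = x g := g4
        rw [e1]
        rfl
      · unfold Aw
        have e1 : x ((lift s)⁻¹ ((lift t) (g, y))).1 = x (s⁻¹ g) := g6
        have e2 : x ((lift s)⁻¹ (g, y)).1 = x (s⁻¹ g) := rfl
        rw [e1, e2]
        rfl
      · unfold Aw
        have e1 : x ((lift s)⁻¹ ((lift s)⁻¹ ((lift t) ((lift s) ((lift t)⁻¹ (g, y)))))).1 =
          x (s⁻¹ g) := g7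
        have e2 : x ((lift s)⁻¹ (g, y)).1 = x (s⁻¹ g) := rfl
        rw [e1, e2]
        rfl
      · rw [Hm_app]
        have e0 : hm s x H (g, y) =
            (g, upd (x g) (x (s g)) (H (y (x g), y (x (s g)))) y) := by
          unfold hm
          rw [if_neg g1]
        rw [e0]
        unfold Aw
        have e1 : ∀ w : Y → Fin q, x ((lift s)⁻¹ (g, w)).1 = x (s⁻¹ g) := fun w => rfl
        have e2 : ∀ w : Y → Fin q, ((lift s)⁻¹ (g, w)).2 = w := fun w => rfl
        rw [e1, e1, e2, e2, upd_c g2.symm g3.symm]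
      · intro i j hij
        rw [hEW, hEW]
        by_cases hi : pr2 s x (g, y) ∈ A i
        · have hj : pr2 s x (g, y) ∉ A j := fun hj =>
            Finset.disjoint_left.1 (adis i j hij) hi hj
          rw [if_neg hj, mul_zero]
        · rw [if_neg hi, zero_mul]
      · obtain ⟨i, hi⟩ := hcov
        have hi1 : EW (lift s) (Hm s x H) (Aw F k x) i (g, y) = 1 := by
          rw [hEW, if_pos hi]
        fin_cases i
        · have : EW (lift s) (Hm s x H) (Aw F k x) 0 (g, y) = 1 := hi1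
          rw [this]
          ring
        · have : EW (lift s) (Hm s x H) (Aw F k x) 1 (g, y) = 1 := hi1
          rw [this]
          ring
        · have : EW (lift s) (Hm s x H) (Aw F k x) 2 (g, y) = 1 := hi1
          rw [this]
          ring
        · have : EW (lift s) (Hm s x H) (Aw F k x) 3 (g, y) = 1 := hi1
          rw [this]
          ring
        · have : EW (lift s) (Hm s x H) (Aw F k x) 4 (g, y) = 1 := hi1
          rw [this]
          ring)
  refine ⟨Fintype.card (G × (Y → Fin q)), Fintype.card_pos, z, z1, ?_, bad', ?_, z4, z5⟩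
  · have e1 : Nat.card {c : G × (Y → Fin q) // Aw F k x c ≠ 0} =
        (Finset.univ.filter fun z : G × (Y → Fin q) => (z.2 (x z.1) : ℕ) < k).card := by
      rw [Nat.card_eq_fintype_card, Fintype.card_subtype]
      congr 1
      ext c
      simp only [Finset.mem_filter, Finset.mem_univ, true_and]
      unfold Aw
      split_ifs with h <;> simp [h]
    rw [e1] at z2
    have e2 := card_e (q := q) k x
    have hq1 : (0 : ℝ) < q := by exact_mod_cast hq0
    have e3 : ((z .e).rank : ℝ) * q ≤ k * (Fintype.card (G × (Y → Fin q)) : ℝ) := by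
      calc ((z .e).rank : ℝ) * q ≤ ((Finset.univ.filter fun z : G × (Y → Fin q) =>
            (z.2 (x z.1) : ℕ) < k).card : ℝ) * q :=
            mul_le_mul_of_nonneg_right (by exact_mod_cast z2) hq1.le
        _ ≤ _ := by exact_mod_cast e2
    have e4 : ((z .e).rank : ℝ) ≤ (k : ℝ) / q * (Fintype.card (G × (Y → Fin q)) : ℝ) := by
      rw [div_mul_eq_mul_div, le_div_iff₀ hq1]
      exact e3
    exact e4.trans (mul_le_mul_of_nonneg_right hk5 (Nat.cast_nonneg _))
  · rw [z3]
    have hcz : (Fintype.card (G × (Y → Fin q)) : ℝ) =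
        Fintype.card G * Fintype.card (Y → Fin q) := by
      rw [Fintype.card_prod]
      push_cast
      ring
    have e1 : ((B1 ∪ B2).card : ℝ) ≤ B1.card + B2.card := by
      exact_mod_cast Finset.card_union_le _ _
    have e2 : (B1.card : ℝ) = bad0.card * Fintype.card (Y → Fin q) := by
      rw [hB1, Finset.card_product, Finset.card_univ]
      push_cast
      ring
    have e3 : (bad0.card : ℝ) * N ≤ Fintype.card G := by exact_mod_cast hb0
    have e4 : (B1.card : ℝ) ≤ 1 / N * Fintype.card (G × (Y → Fin q)) := by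
      rw [e2, hcz, ← mul_assoc]
      refine mul_le_mul_of_nonneg_right ?_ (Nat.cast_nonneg _)
      rw [div_mul_eq_mul_div, one_mul, le_div_iff₀ hN0]
      exact e3
    have e5 := card_ex (q := q) s x E acov
    have hqN : (N : ℝ) ≤ q := by exact_mod_cast hq
    have e6 : (B2.card : ℝ) ≤ 1 / N * Fintype.card (G × (Y → Fin q)) := by
      have e7 : (B2.card : ℝ) * N ≤ Fintype.card (G × (Y → Fin q)) := by
        calc (B2.card : ℝ) * N ≤ (B2.card : ℝ) * (q * q) := by
              refine mul_le_mul_of_nonneg_left ?_ (Nat.cast_nonneg _)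
              have : (1 : ℝ) ≤ q := by exact_mod_cast hq0
              nlinarith
          _ ≤ _ := by exact_mod_cast e5
      rw [div_mul_eq_mul_div, one_mul, le_div_iff₀ hN0]
      exact e7
    have e8 : 1 / (N : ℝ) * Fintype.card (G × (Y → Fin q)) ≤
        η / 2 * Fintype.card (G × (Y → Fin q)) :=
      mul_le_mul_of_nonneg_right hNη (Nat.cast_nonneg _)
    linarith

end Pool.Agent.Helper82.FR
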